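import Pool.Agent.V1138.KR.Real
import Pool.Agent.V1138.FP.Curve

/-!
# MP_6e1a06_nt: one-parameter families of curves in `Y(1)^n` with three degenerate members: no atypical
points on all but finitely many members whose parameters are values of a rational function at radicals

The modular curve product `Y(1)^n` is identified with `ℂ^n` by the elliptic modular function
`jj = j = E₄³ / Δ`; `n` is arbitrary.

**Families.** Let `K ⊂ ℂ` be a countable field, for example the field of all algebraic numbers. We
consider algebraic families `X_t` of curves in `Y(1)^n` with one parameter `t`, given by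
* a family `B_t ⊆ P^N` of projective algebraic curves, defined by forms `G k` with coefficients in
  `K[t]`,
* quotients `f_i = A_i / B_i` of forms of the same degree `d_i` with coefficients in `K[t]`,
* functions `s_i` integral over `K[j]`, `R_i (s_i, j) = 0` with `R_i` monic in the first variable
  (`R_i = S - J`, `s_i = j`; in general modular functions of any level without poles in the upper
  half plane), and polynomials `c_i ∈ K[t]`:
`X_t = {x | ∃ y ∈ B_t, ∃ s, ∀ i, R_i (s_i, x_i) = 0, c_i (t) s_i = A_i (y) / B_i (y)}`
(`scaledImage`). For `R_i = S - J` this is the curve `x_i = f_i (y) / c_i (t)`, `y ∈ B_t`, defined over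
the field of the algebraic numbers if `K` is contained in it and `t` is algebraic.

**Parameters.** Let `Γ₀` be a finitely generated subgroup of `ℚ^×`. We call `ξ` a pure radical over
`Γ₀` if `ξ ^ N = γ` for some `N > 0` and some rational number `γ` which has a power in `Γ₀`, and `ξ`
has degree `N` over `ℚ` (`IsPureRadical`). For example all real numbers with a power in `Γ₀`, and
their conjugates, are pure radicals (theorem `Pool.Agent.V1138.KR.pure_of_real`). Let `f = P / Q` be
a rational function, where `P` and `Q` are coprime polynomials with integral coefficients. The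
parameters are the values `t = f (ξ)` of `f` at the pure radicals `ξ` over `Γ₀` (`IsRadicalValue`),
for example the numbers `2^(1/N) + 2^(-1/N)`, or `1 + 6^(k/N)`. These parameters are algebraic
numbers of unbounded degree and unbounded height. A rational number `α` is called independent if
`f (x) = α` for at least one `x ≠ 0` with no power in `Γ₀` (for `f = X`: no power of `α ≠ 0` is in
`Γ₀`).

The family degenerates at the independent rational values `t = α_1, …, α_M` of the parameter
in the following sense:
* no point of `B_{α_l}` lies on two of the divisors of the `f_i` (at `t = α_l`) (this is the condition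
  `InGeneralPosition` for `m = 1`; it implies that `B_{α_l}` is at most a curve if `n ≥ 2` and the
  `f_i` are not constant on its components), and
* the `c_i` have zeros at `α_l`, of orders `e_{l i} > 0`, and these orders are independent on polygons
  (`IndependentOnPolygons`): if `U` is a nonempty set of indices `l`, and `i_l ≠ j_l` (`l ∈ U`) are
  coordinates such that every coordinate occurs an even number of times among the `i_l` and `j_l`,
  then the product of the `q_l e_{l i_l} e_{l j_l}` over `l ∈ U` is not a square, `1 ≤ q_l ≤ T^4`,
  where `T` bounds the degrees of the `R_i` (`T = 1` for `R_i = S - J`). For example different prime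
  numbers `e_{l i} > T^4` are independent on polygons (theorem `Pool.Agent.V11322.ZF.cyc_of_primes`).

**Theorem.** If `M ≥ 3` then for all but finitely many `t = f (ξ)` the set `X_t` has no
point at all on special subvarieties of codimension at least two, strongly special or not,
`atyp(X_t) = ∅`. The constant coordinates of the special subvarieties can be special points or integral over the ring
generated by any given finite subset `Γ` of `K`.

The number of degenerate members does not depend on `n`. No large Galois orbits hypothesis is used. In
general the curves `X_t` do not pass through the cusp `(∞, …, ∞)` or another special boundary point, and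
they need not be asymmetric, so that the known unconditional results do not apply.

In our file `MP_e573c6_ag.RadicalValues`, with the same parameters, four degenerate members with orders
independent in pairs are needed.

**The arithmetic** (`Pool.Agent.V1138.KR`). If `α = u / v` is independent then for all but finitely
many parameters `t = f (ξ)` the (homogenized) value at `α` of the minimal polynomial of `t` has a
prime factor larger than a given number `D`. Otherwise the resultant of `u Q - v P` and the minimal
polynomial of `ξ`, `ξ ^ N = γ`, has only small prime factors, hence `β ^ N - γ` is an `S`-unit for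
every zero `β` of `u Q - v P`, with a fixed finite set `S`. By the unit equation `β ^ N / γ` is one of
finitely many numbers, and if no power of `β` is in `Γ₀` this number determines `N` and `γ`.
-/

set_option autoImplicit false

namespace Pool.Agent.Results.MP_6e1a06_nt.RadicalValues

open MvPolynomial
open Pool.Agent.Y152.RP.Fam (SpecialVariety InGeneralPosition scaledImage)
open Pool.Agent.V1138.FP (IndependentOnPolygons atyp)

/-- `ξ ^ N = γ` for some `N > 0` and `γ ∈ ℚ^×` with a power in `Γ₀`, and `ξ` has degree `N`. -/
def IsPureRadical (Γ₀ : Subgroup ℚˣ) (ξ : ℂ) : Prop :=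
  ∃ N : ℕ, 0 < N ∧ ∃ γ : ℚˣ, (∃ m : ℕ, 0 < m ∧ γ ^ m ∈ Γ₀) ∧ ξ ^ N = ((γ : ℚ) : ℂ) ∧
    N ≤ (minpoly ℚ ξ).natDegree

/-- `t` is the value of `P / Q` at a pure radical over `Γ₀`. -/
def IsRadicalValue (Γ₀ : Subgroup ℚˣ) (P Q : Polynomial ℤ) (t : ℂ) : Prop :=
  ∃ ξ : ℂ, IsPureRadical Γ₀ ξ ∧ Polynomial.aeval ξ Q ≠ 0 ∧
    t = Polynomial.aeval ξ P / Polynomial.aeval ξ Q

/-- `P` and `Q` have no common factor over the rational numbers. -/
def NoCommonFactor (P Q : Polynomial ℤ) : Prop :=
  IsCoprime (P.map (Int.castRingHom ℚ)) (Q.map (Int.castRingHom ℚ))

/-- `P / Q` takes the value `α` at a nonzero number which has no power in `Γ₀`. -/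
def Independent (Γ₀ : Subgroup ℚˣ) (P Q : Polynomial ℤ) (α : ℚ) : Prop :=
  ∃ x : ℂ, x ≠ 0 ∧ Polynomial.aeval x P = (α : ℂ) * Polynomial.aeval x Q ∧
    ∀ m : ℕ, 0 < m → ∀ γ ∈ Γ₀, x ^ m ≠ ((γ : ℚ) : ℂ)


/-- One-parameter families of curves which degenerate at three independent rational parameters: all but
finitely many of the members with parameters `P (ξ) / Q (ξ)` have no atypical points. -/
theorem result (K : Subfield ℂ) [Countable K] (κ : Type) [Finite κ] (N n M T : ℕ)
    (G : κ → MvPolynomial (Fin (N + 1)) (Polynomial K)) (hG : ∀ k, ∃ e, (G k).IsHomogeneous e)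
    (A B : Fin n → MvPolynomial (Fin (N + 1)) (Polynomial K)) (δ : Fin n → ℕ)
    (hA : ∀ i, (A i).IsHomogeneous (δ i)) (hB : ∀ i, (B i).IsHomogeneous (δ i))
    (R : Fin n → Polynomial (Polynomial K)) (hR : ∀ i, (R i).Monic)
    (hT : ∀ i u w, ((R i).coeff u).coeff w ≠ 0 → u ≤ T ∧ w ≤ T)
    (c : Fin n → Polynomial K) (α : Fin M → ℚ)
    (hind : IndependentOnPolygons T fun l i => (c i).rootMultiplicity ((α l : ℚ) : K))
    (hpos : ∀ l, InGeneralPosition ((α l : ℚ) : ℂ) 1 G A B) (Γ : Finset ℂ)
    (hΓ : ∀ γ ∈ Γ, γ ∈ K) (hM : 3 ≤ M)
    (Γ₀ : Subgroup ℚˣ) (hΓ₀ : Γ₀.FG)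
    (P Q : Polynomial ℤ) (hPQ : NoCommonFactor P Q) (hα : ∀ l, Independent Γ₀ P Q (α l)) :
    {t : ℂ | IsRadicalValue Γ₀ P Q t ∧ atyp Γ (scaledImage t G A B R c) ≠ ∅}.Finite :=
  Pool.Agent.V1138.FP.fewCurves K κ N n M T G hG A B δ hA hB R hR hT c α hind hpos Γ hΓ
    {t | IsRadicalValue Γ₀ P Q t} (fun t ht => Pool.Agent.V1138.KR.alg_of_value Γ₀ P Q t ht) (by omega)
    fun D => Pool.Agent.V1138.KR.finite_badK D hM α Γ₀ hΓ₀ P Q hPQ hα

end Pool.Agent.Results.MP_6e1a06_nt.RadicalValues
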