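import Pool.Agent.V1138.SP.Many
import Pool.Agent.V1138.FP.Curve

/-!
# MP_6e1a06_nt: one-parameter families of curves in `Y(1)^n`: no atypical points on all but finitely many
members with parameters of sparse minimal polynomial

The modular curve product `Y(1)^n` is identified with `ℂ^n` by the elliptic modular function
`jj = j = E₄³ / Δ`; `n` is arbitrary.

**Families.** Let `K ⊂ ℂ` be a countable field, for example the field of all algebraic numbers. We
consider algebraic families `X_t` of curves in `Y(1)^n` with one parameter `t`, given by
* a family `B_t ⊆ P^N` of projective algebraic curves, defined by forms `G k` with coefficients in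
  `K[t]`,
* quotients `f_i = A_i / B_i` of forms of the same degree `d_i` with coefficients in `K[t]`,
* functions `s_i` integral over `K[j]`, `R_i (s_i, j) = 0` with `R_i` monic in the first variable
  (`R_i = S - J`, `s_i = j`; in general modular functions of any level without poles in the upper
  half plane), and polynomials `c_i ∈ K[t]`:
`X_t = {x | ∃ y ∈ B_t, ∃ s, ∀ i, R_i (s_i, x_i) = 0, c_i (t) s_i = A_i (y) / B_i (y)}`
(`scaledImage`). For `R_i = S - J` this is the curve `x_i = f_i (y) / c_i (t)`, `y ∈ B_t`, defined over
the field of the algebraic numbers if `K` is contained in it and `t` is algebraic.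

**Parameters.** The parameters are the algebraic numbers `t` whose minimal polynomial (the irreducible
polynomial with integral coefficients with the root `t`) has at most `s + 1` terms
(`SparseMinimalPolynomial`). The degree of `t` and the coefficients of the minimal polynomial are
arbitrary; for `s = 2` the parameters are all the roots of irreducible trinomials and binomials.

The family degenerates at the distinct rational values `t = α_1, …, α_M ≠ 0` of the parameter
in the following sense:
* no point of `B_{α_l}` lies on two of the divisors of the `f_i` (at `t = α_l`) (this is the condition
  `InGeneralPosition` for `m = 1`; it implies that `B_{α_l}` is at most a curve if `n ≥ 2` and the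
  `f_i` are not constant on its components), and
* the `c_i` have zeros at `α_l`, of orders `e_{l i} > 0`, and these orders are independent on polygons
  (`IndependentOnPolygons`): if `U` is a nonempty set of indices `l`, and `i_l ≠ j_l` (`l ∈ U`) are
  coordinates such that every coordinate occurs an even number of times among the `i_l` and `j_l`,
  then the product of the `q_l e_{l i_l} e_{l j_l}` over `l ∈ U` is not a square, `1 ≤ q_l ≤ T^4`,
  where `T` bounds the degrees of the `R_i` (`T = 1` for `R_i = S - J`). For example different prime
  numbers `e_{l i} > T^4` are independent on polygons (theorem `Pool.Agent.V11322.ZF.cyc_of_primes`).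

**Theorem.** If `M ≥ 3 + 6 s (s + 1)` then for all but finitely many such `t` the set `X_t` has no
point at all on special subvarieties of codimension at least two, strongly special or not,
`atyp(X_t) = ∅`. The constant coordinates of the special subvarieties can be special points or integral over the ring
generated by any given finite subset `Γ` of `K`.

The number of degenerate members does not depend on `n`. No large Galois orbits hypothesis is used. In
general the curves `X_t` do not pass through the cusp `(∞, …, ∞)` or another special boundary point, and
they need not be asymmetric, so that the known unconditional results do not apply.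

In our file `MP_e573c6_ag.SparseParameters`, with the same parameters, `4 + 6 s (s + 1)` degenerate
members with orders independent in pairs are needed.

**The arithmetic** (`Pool.Agent.V1138.SP`). Let `α_1, …, α_C` be distinct positive rational numbers,
`C = 3 s (s + 1) + 1`, and `D` a number. For all but finitely many `t ≠ 0` whose minimal polynomial
has `s + 1` terms its (homogenized) value at one of the `α_l` has a prime factor larger than `D`:
`t` is not `S`-integral relative to `α_1, …, α_C`. Here both the exponents and
the coefficients of the minimal polynomial vary. The proof works in a field of germs of sequences of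
rational numbers, which is graded by the rates of growth of the exponents of `S`-units (subspace
theorem, `Pool.Agent.TH551.SU`); it uses Cramer's rule and the rule of signs of Descartes.
-/

set_option autoImplicit false

namespace Pool.Agent.Results.MP_6e1a06_nt.SparseParameters

open MvPolynomial
open Pool.Agent.Y152.RP.Fam (SpecialVariety InGeneralPosition scaledImage)
open Pool.Agent.V1138.FP (IndependentOnPolygons atyp)

/-- The minimal polynomial of `t` over the integers has at most `s + 1` terms. -/
def SparseMinimalPolynomial (s : ℕ) (t : ℂ) : Prop :=
  ∃ F : Polynomial ℤ, Irreducible F ∧ F.support.card ≤ s + 1 ∧ Polynomial.aeval t F = 0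


/-- One-parameter families of curves which degenerate at sufficiently many rational parameters: all but
finitely many of the members with parameters with sparse minimal polynomial have no atypical points. -/
theorem result (K : Subfield ℂ) [Countable K] (κ : Type) [Finite κ] (N n M T : ℕ)
    (G : κ → MvPolynomial (Fin (N + 1)) (Polynomial K)) (hG : ∀ k, ∃ e, (G k).IsHomogeneous e)
    (A B : Fin n → MvPolynomial (Fin (N + 1)) (Polynomial K)) (δ : Fin n → ℕ)
    (hA : ∀ i, (A i).IsHomogeneous (δ i)) (hB : ∀ i, (B i).IsHomogeneous (δ i))
    (R : Fin n → Polynomial (Polynomial K)) (hR : ∀ i, (R i).Monic)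
    (hT : ∀ i u w, ((R i).coeff u).coeff w ≠ 0 → u ≤ T ∧ w ≤ T)
    (c : Fin n → Polynomial K) (α : Fin M → ℚ) (hinj : Function.Injective α) (hα : ∀ l, α l ≠ 0)
    (hind : IndependentOnPolygons T fun l i => (c i).rootMultiplicity ((α l : ℚ) : K))
    (hpos : ∀ l, InGeneralPosition ((α l : ℚ) : ℂ) 1 G A B) (Γ : Finset ℂ)
    (hΓ : ∀ γ ∈ Γ, γ ∈ K) (s : ℕ) (hM : 3 + 6 * s * (s + 1) ≤ M) :
    {t : ℂ | SparseMinimalPolynomial s t ∧ atyp Γ (scaledImage t G A B R c) ≠ ∅}.Finite :=
  Pool.Agent.V1138.FP.fewCurves K κ N n M T G hG A B δ hA hB R hR hT c α hind hpos Γ hΓ
    {t | SparseMinimalPolynomial s t} (fun t ht => by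
      obtain ⟨F, hF, -, hFt⟩ := ht
      exact ⟨F, hF.ne_zero, hFt⟩) (by omega)
    fun D => Pool.Agent.V1138.SP.finite_badS D s hM α hinj hα

end Pool.Agent.Results.MP_6e1a06_nt.SparseParameters
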