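import Pool.Agent.V1138.AT.Main
import Pool.Agent.V1138.FP.Curve

/-!
# MP_6e1a06_nt: one-parameter families of curves in `Y(1)^n` with six degenerate members: no atypical points
on all but finitely many members with parameters `a + b ζ`, `ζ` a root of unity

The modular curve product `Y(1)^n` is identified with `ℂ^n` by the elliptic modular function
`jj = j = E₄³ / Δ`; `n` is arbitrary.

**Families.** Let `K ⊂ ℂ` be a countable field, for example the field of all algebraic numbers. We
consider algebraic families `X_t` of curves in `Y(1)^n` with one parameter `t`, given by
* a family `B_t ⊆ P^N` of projective algebraic curves, defined by forms `G k` with coefficients in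
  `K[t]`,
* quotients `f_i = A_i / B_i` of forms of the same degree `d_i` with coefficients in `K[t]`,
* functions `s_i` integral over `K[j]`, `R_i (s_i, j) = 0` with `R_i` monic in the first variable
  (`R_i = S - J`, `s_i = j`; in general modular functions of any level without poles in the upper
  half plane), and polynomials `c_i ∈ K[t]`:
`X_t = {x | ∃ y ∈ B_t, ∃ s, ∀ i, R_i (s_i, x_i) = 0, c_i (t) s_i = A_i (y) / B_i (y)}`
(`scaledImage`). For `R_i = S - J` this is the curve `x_i = f_i (y) / c_i (t)`, `y ∈ B_t`, defined over
the field of the algebraic numbers if `K` is contained in it and `t` is algebraic.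

**Parameters.** The parameters are all numbers `t = a + b ζ` with a rational number `a`, an integer
`b ≠ 0` and a root of unity `ζ` of any order (`IsTorsionTranslate`). They contain all rational numbers,
and numbers of the degrees `φ (n)` for all `n`; neither the degree nor the height of `t` is bounded,
and `t` does not belong to a fixed finitely generated field. (Since `K` contains the rational numbers
the theorem holds as well for `b ∈ (1 / R) ℤ` with a fixed denominator `R`, after a change of the
parameter.)

The family degenerates at the different rational values `t = α_1, …, α_M` of the parameter
in the following sense: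
* no point of `B_{α_l}` lies on two of the divisors of the `f_i` (at `t = α_l`) (this is the condition
  `InGeneralPosition` for `m = 1`; it implies that `B_{α_l}` is at most a curve if `n ≥ 2` and the
  `f_i` are not constant on its components), and
* the `c_i` have zeros at `α_l`, of orders `e_{l i} > 0`, and these orders are independent on polygons
  (`IndependentOnPolygons`): if `U` is a nonempty set of indices `l`, and `i_l ≠ j_l` (`l ∈ U`) are
  coordinates such that every coordinate occurs an even number of times among the `i_l` and `j_l`,
  then the product of the `q_l e_{l i_l} e_{l j_l}` over `l ∈ U` is not a square, `1 ≤ q_l ≤ T^4`,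
  where `T` bounds the degrees of the `R_i` (`T = 1` for `R_i = S - J`). For example different prime
  numbers `e_{l i} > T^4` are independent on polygons (theorem `Pool.Agent.V11322.ZF.cyc_of_primes`).

**Theorem.** If `M ≥ 6` then for all but finitely many `t = a + b ζ` the set `X_t` has no
point at all on special subvarieties of codimension at least two, strongly special or not,
`atyp(X_t) = ∅`. The constant coordinates of the special subvarieties can be special points or integral over the ring
generated by any given finite subset `Γ` of `K`.

The number of degenerate members does not depend on `n`. No large Galois orbits hypothesis is used. In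
general the curves `X_t` do not pass through the cusp `(∞, …, ∞)` or another special boundary point, and
they need not be asymmetric, so that the known unconditional results do not apply.

In our file `MP_22337f_ag.MoebiusOrbits`, with a larger set of parameters, eight degenerate members with
orders independent in pairs are needed; the starting files on `MP_e573c6_ag` treat parameters of
bounded degree and numbers with a rational power.

**The arithmetic** (`Pool.Agent.V1138.AT`). Let `ζ` be of order `n`, `α` one of the `α_l` and
`(α - a) / b = U / V`. A prime factor of the resultant of `U - V X` and the cyclotomic polynomial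
`Φ_n` divides the (homogenized) value at `α` of the minimal polynomial of `t = a + b ζ`. If `n ≥ N (D)`
and `U / V ≠ 0, 1, -1` then this resultant has a prime factor larger than `D` (theorem `AT.big`): by
the inequality between the arithmetic and the geometric mean it is at least `3 ^ ((φ (n) - 1) / 2)`,
and its part at the primes `p ≤ D` divides `D!`, since it is not divisible by `p²` for `n > D²`. The
bound `N (D)` does not depend on `U` and `V`, that is on `a` and `b`. The three exceptional cases
`α = a, a + b, a - b` are the reason for three additional degenerate members. For the
finitely many `n < N (D)`, if the values at three different `α` have no prime factor larger than `D`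
then the three numbers `(α - t) / (α' - t)` are `S`-units, and there are only finitely many such `t`
by the unit equation.
-/

set_option autoImplicit false

namespace Pool.Agent.Results.MP_6e1a06_nt.TorsionTranslates

open MvPolynomial
open Pool.Agent.Y152.RP.Fam (SpecialVariety InGeneralPosition scaledImage)
open Pool.Agent.V1138.FP (IndependentOnPolygons atyp)

/-- `t = a + b ζ` with a rational number `a`, an integer `b ≠ 0` and a root of unity `ζ`. -/
def IsTorsionTranslate (t : ℂ) : Prop :=
  ∃ (a : ℚ) (b : ℤ) (ζ : ℂ), b ≠ 0 ∧ (∃ n : ℕ, 0 < n ∧ ζ ^ n = 1) ∧ t = a + b * ζ


/-- One-parameter families of curves which degenerate at six rational parameters: all but finitely many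
of the members with parameters `a + b ζ` have no atypical points. -/
theorem result (K : Subfield ℂ) [Countable K] (κ : Type) [Finite κ] (N n M T : ℕ)
    (G : κ → MvPolynomial (Fin (N + 1)) (Polynomial K)) (hG : ∀ k, ∃ e, (G k).IsHomogeneous e)
    (A B : Fin n → MvPolynomial (Fin (N + 1)) (Polynomial K)) (δ : Fin n → ℕ)
    (hA : ∀ i, (A i).IsHomogeneous (δ i)) (hB : ∀ i, (B i).IsHomogeneous (δ i))
    (R : Fin n → Polynomial (Polynomial K)) (hR : ∀ i, (R i).Monic)
    (hT : ∀ i u w, ((R i).coeff u).coeff w ≠ 0 → u ≤ T ∧ w ≤ T)
    (c : Fin n → Polynomial K) (α : Fin M → ℚ) (hα : Function.Injective α)
    (hind : IndependentOnPolygons T fun l i => (c i).rootMultiplicity ((α l : ℚ) : K))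
    (hpos : ∀ l, InGeneralPosition ((α l : ℚ) : ℂ) 1 G A B) (Γ : Finset ℂ)
    (hΓ : ∀ γ ∈ Γ, γ ∈ K) (hM : 6 ≤ M) :
    {t : ℂ | IsTorsionTranslate t ∧ atyp Γ (scaledImage t G A B R c) ≠ ∅}.Finite :=
  Pool.Agent.V1138.FP.fewCurves K κ N n M T G hG A B δ hA hB R hR hT c α hind hpos Γ hΓ
    {t | IsTorsionTranslate t} (fun t ht => Pool.Agent.V1138.AT.alg_of_tr t ht) (by omega)
    fun D => Pool.Agent.V1138.AT.finite_badA D hM α hα

end Pool.Agent.Results.MP_6e1a06_nt.TorsionTranslates
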